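import Mathlib
import Pool.Agent.Lib.MP_b803e5_al.Helly

/-!
# MP_b803e5_al, bridged graphs: definitions
-/

set_option autoImplicit false

namespace Pool.Agent.MP_b803e5_al

variable {V : Type*}

/-- A bridged graph (the 1-skeleton of a systolic complex): a connected, weakly modular graph
(triangle and quadrangle condition) without induced cycles of length four or five. -/
structure IsBridged (X : SimpleGraph V) : Prop where
  connected : X.Connected
  triangle : ∀ y u v : V, X.Adj u v → X.dist u y = X.dist v y → 1 ≤ X.dist u y →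
    ∃ w, X.Adj u w ∧ X.Adj v w ∧ X.dist w y + 1 = X.dist u y
  quadrangle : ∀ y x u v : V, X.Adj x u → X.Adj x v → u ≠ v → ¬ X.Adj u v →
    X.dist u y + 1 = X.dist x y → X.dist v y + 1 = X.dist x y →
    ∃ w, X.Adj u w ∧ X.Adj v w ∧ X.dist w y + 2 = X.dist x y
  four : ∀ a b c d : V, X.Adj a b → X.Adj b c → X.Adj c d → X.Adj d a → a ≠ c → b ≠ d →
    X.Adj a c ∨ X.Adj b d
  five : ∀ a b c d e : V, X.Adj a b → X.Adj b c → X.Adj c d → X.Adj d e → X.Adj e a →
    a ≠ c → a ≠ d → b ≠ d → b ≠ e → c ≠ e →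
    X.Adj a c ∨ X.Adj a d ∨ X.Adj b d ∨ X.Adj b e ∨ X.Adj c e

/-- `z` is a (double) step from `x` towards `y`: `z = y` if `x` is at distance at most two of `y`;
otherwise `z` is two steps closer to `y` and adjacent to ALL neighbours of `x` which are closer
to `y`. -/
def Step (X : SimpleGraph V) (y x z : V) : Prop :=
  (X.dist x y ≤ 2 ∧ z = y) ∨
  (2 < X.dist x y ∧ X.dist z y + 2 = X.dist x y ∧
    ∀ m, X.Adj x m → X.dist m y + 1 = X.dist x y → X.Adj m z)

/-- `c` is a trajectory of steps towards `y` -/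
def Traj (X : SimpleGraph V) (y : V) (c : ℕ → V) : Prop := ∀ t, Step X y (c t) (c (t + 1))

/-- common neighbours -/
def Mid (X : SimpleGraph V) (x z : V) : Set V := {m | X.Adj x m ∧ X.Adj m z}

end Pool.Agent.MP_b803e5_al
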