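import Mathlib
import Pool.Agent.Lib.MP_b803e5_al_B.Defs

/-!
# MP_b803e5_al, bridged graphs: cliques
-/

set_option autoImplicit false

namespace Pool.Agent.MP_b803e5_al

variable {V : Type*} {X : SimpleGraph V}

lemma near_iff (hX : X.Connected) {a b : V} : X.dist a b ≤ 1 ↔ a = b ∨ X.Adj a b := by
  constructor
  · intro h
    rcases Nat.lt_or_ge (X.dist a b) 1 with h1 | h1
    · left
      exact hX.dist_eq_zero_iff.1 (by omega)
    · right
      exact SimpleGraph.dist_eq_one_iff_adj.1 (le_antisymm h h1)
  · rintro (rfl | h)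
    · rw [SimpleGraph.dist_self]
      exact Nat.zero_le _
    · exact (SimpleGraph.dist_eq_one_iff_adj.2 h).le

private lemma CliA_adj (hX : X.Connected) {a b y : V} (h : X.Adj a b) :
    X.dist a y ≤ X.dist b y + 1 := by
  have h1 := hX.dist_triangle (u := a) (v := b) (w := y)
  have h2 := SimpleGraph.dist_eq_one_iff_adj.2 h
  omega

/-- The neighbours of `x` which are closer to `y` are pairwise adjacent or equal. -/
lemma rho_clique (hB : IsBridged X) {y x u v : V} (hu : X.Adj x u) (hv : X.Adj x v)
    (h1 : X.dist u y + 1 = X.dist x y) (h2 : X.dist v y + 1 = X.dist x y) : X.dist u v ≤ 1 := by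
  rw [near_iff hB.connected]
  by_contra hne
  push Not at hne
  obtain ⟨w, hw1, hw2, hw3⟩ := hB.quadrangle y x u v hu hv hne.1 hne.2 h1 h2
  have hxw : x ≠ w := by
    intro h
    rw [h] at hw3
    omega
  rcases hB.four x u w v hu hw1 hw2.symm hv.symm hxw hne.1 with h | h
  · have h3 := CliA_adj hB.connected (y := y) h
    omega
  · exact hne.2 h

private lemma CliA_next (hX : X.Connected) {x y : V} {j : ℕ} (h : X.dist x y = j + 1) :
    ∃ z, X.Adj x z ∧ X.dist z y = j := by
  obtain ⟨z, hz1, hz2⟩ := exists_between hX (u := x) (v := y) (m := 1) (n := j) (by omega)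
  have h1 := hX.dist_triangle (u := x) (v := z) (w := y)
  exact ⟨z, SimpleGraph.dist_eq_one_iff_adj.1 (by omega), by omega⟩

/-- A finite clique in a sphere about `y` has a common neighbour which is closer to `y`. -/
lemma proj_clique (hB : IsBridged X) {y : V} {j : ℕ} (s : Finset V) (hs : s.Nonempty)
    (hc : ∀ p ∈ s, ∀ q ∈ s, X.dist p q ≤ 1) (hj : ∀ p ∈ s, X.dist p y = j + 1) :
    ∃ z, X.dist z y = j ∧ ∀ p ∈ s, X.Adj p z := by
  classical
  induction hs using Finset.Nonempty.cons_induction with
  | singleton p =>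
    obtain ⟨z, hz1, hz2⟩ := CliA_next hB.connected (hj p (Finset.mem_singleton_self p))
    refine ⟨z, hz2, fun q hq => ?_⟩
    rw [Finset.mem_singleton] at hq
    rw [hq]
    exact hz1
  | cons p s hp hs ih =>
    obtain ⟨z, hz1, hz2⟩ := ih
      (fun a ha b hb => hc a (Finset.mem_cons_of_mem ha) b (Finset.mem_cons_of_mem hb))
      (fun a ha => hj a (Finset.mem_cons_of_mem ha))
    by_cases hpz : X.Adj p z
    · refine ⟨z, hz1, fun q hq => ?_⟩
      rcases Finset.mem_cons.1 hq with rfl | hq
      · exact hpz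
      · exact hz2 q hq
    · obtain ⟨q, hq⟩ := hs
      have hpj := hj p (Finset.mem_cons_self p s)
      have hqj := hj q (Finset.mem_cons_of_mem hq)
      have hadj : ∀ r ∈ s, X.Adj p r := by
        intro r hr
        rcases (near_iff hB.connected).1 (hc p (Finset.mem_cons_self p s) r
          (Finset.mem_cons_of_mem hr)) with h | h
        · exact absurd (h ▸ hr) hp
        · exact h
      obtain ⟨z', h1, h2, h3⟩ := hB.triangle y p q (hadj q hq) (by rw [hpj, hqj]) (by omega)
      have hz'j : X.dist z' y = j := by omega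
      have hzz : X.Adj z z' := by
        rcases (near_iff hB.connected).1 (rho_clique hB (y := y) (x := q) (hz2 q hq) h2
          (by rw [hz1, hqj]) (by rw [hz'j, hqj])) with h | h
        · exact absurd (h ▸ h1) hpz
        · exact h
      refine ⟨z', hz'j, fun r hr => ?_⟩
      rcases Finset.mem_cons.1 hr with rfl | hr
      · exact h1
      · by_contra hrz
        have hrj := hj r (Finset.mem_cons_of_mem hr)
        rcases hB.four z z' p r hzz h1.symm (hadj r hr) (hz2 r hr)
          (fun h => by rw [h] at hz1; omega) (fun h => by rw [h] at hz'j; omega) with h | h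
        · exact hpz h.symm
        · exact hrz h.symm

lemma step_dist (hX : X.Connected) {y x z : V} (h : Step X y x z) : X.dist x z ≤ 2 := by
  rcases h with ⟨h1, rfl⟩ | ⟨h1, h2, h3⟩
  · exact h1
  · obtain ⟨m, hm1, hm2⟩ := CliA_next hX (x := x) (y := y) (j := X.dist x y - 1) (by omega)
    have h4 := h3 m hm1 (by omega)
    have h5 := hX.dist_triangle (u := x) (v := m) (w := z)
    have h6 := SimpleGraph.dist_eq_one_iff_adj.2 hm1
    have h7 := SimpleGraph.dist_eq_one_iff_adj.2 h4
    omega

/-- steps exist -/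
lemma step_exists (hB : IsBridged X) (hfin : ∀ v : V, (X.neighborSet v).Finite) (y x : V) :
    ∃ z, Step X y x z := by
  by_cases h : X.dist x y ≤ 2
  · exact ⟨y, Or.inl ⟨h, rfl⟩⟩
  · push Not at h
    have hS : {m | X.Adj x m ∧ X.dist m y + 1 = X.dist x y}.Finite :=
      (hfin x).subset fun m hm => hm.1
    obtain ⟨m, hm1, hm2⟩ := CliA_next hB.connected (x := x) (y := y) (j := X.dist x y - 1)
      (by omega)
    obtain ⟨z, hz1, hz2⟩ := proj_clique hB (y := y) (j := X.dist x y - 2) hS.toFinset
      ⟨m, hS.mem_toFinset.2 ⟨hm1, by omega⟩⟩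
      (fun p hp q hq => by
        rw [hS.mem_toFinset] at hp hq
        exact rho_clique hB hp.1 hq.1 hp.2 hq.2)
      (fun p hp => by
        rw [hS.mem_toFinset] at hp
        have := hp.2
        omega)
    exact ⟨z, Or.inr ⟨h, by omega, fun p hp1 hp2 => hz2 p (hS.mem_toFinset.2 ⟨hp1, hp2⟩)⟩⟩

end Pool.Agent.MP_b803e5_al
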