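import Mathlib
import Pool.Agent.Lib.MP_b803e5_al_B.CliA

/-!
# MP_b803e5_al, bridged graphs: the ball about an edge
-/

set_option autoImplicit false

namespace Pool.Agent.MP_b803e5_al

variable {V : Type*} {X : SimpleGraph V}

private lemma CliB_adj (hX : X.Connected) {a b y : V} (h : X.Adj a b) :
    X.dist a y ≤ X.dist b y + 1 := by
  have h1 := hX.dist_triangle (u := a) (v := b) (w := y)
  have h2 := SimpleGraph.dist_eq_one_iff_adj.2 h
  omega

private lemma CliB_step (hB : IsBridged X) (hfin : ∀ v : V, (X.neighborSet v).Finite) (y x : V)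
    (h : 2 ≤ X.dist x y) : ∃ s, X.dist s y + 2 = X.dist x y ∧
      ∀ m, X.Adj x m → X.dist m y + 1 = X.dist x y → X.Adj m s := by
  rcases Nat.lt_or_ge 2 (X.dist x y) with h1 | h1
  · obtain ⟨s, hs⟩ := step_exists hB hfin y x
    rcases hs with ⟨h2, -⟩ | ⟨-, h2, h3⟩
    · omega
    · exact ⟨s, h2, h3⟩
  · refine ⟨y, by rw [SimpleGraph.dist_self]; omega, fun m _ hm => ?_⟩
    exact SimpleGraph.dist_eq_one_iff_adj.1 (by omega)

private lemma CliB_main (hB : IsBridged X) (hfin : ∀ v : V, (X.neighborSet v).Finite) {y y' : V}
    (hy : X.dist y y' ≤ 1) (n : ℕ) : ∀ x u v : V, X.dist x y = n → X.dist x y' = n →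
    X.Adj x u → X.Adj x v → X.dist u y + 1 = n → X.dist v y' + 1 = n → X.dist u v ≤ 1 := by
  have hX := hB.connected
  induction n with
  | zero =>
    intro x u v _ _ _ _ h
    omega
  | succ n ih =>
    intro x u v hxy hxy' hu hv h1 h2
    rcases (near_iff hX).1 hy with rfl | hyy
    · exact rho_clique hB (y := y) (x := x) hu hv (by omega) (by omega)
    rcases Nat.eq_zero_or_pos n with hn | hn
    · have h3 : u = y := hX.dist_eq_zero_iff.1 (by omega)
      have h4 : v = y' := hX.dist_eq_zero_iff.1 (by omega)
      rw [h3, h4]
      exact hy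
    rw [near_iff hX]
    by_contra hne
    push Not at hne
    obtain ⟨huv, huv'⟩ := hne
    have c1 := SimpleGraph.dist_comm (G := X) (u := x) (v := y)
    have c2 := SimpleGraph.dist_comm (G := X) (u := x) (v := y')
    obtain ⟨y'', hy1, hy2, hy3⟩ := hB.triangle x y y' hyy (by omega) (by omega)
    have c3 := SimpleGraph.dist_comm (G := X) (u := x) (v := y'')
    obtain ⟨w, hw1, hw2⟩ := exists_between hX (u := x) (v := y'') (m := 1) (n := n - 1) (by omega)
    have hw3 := hX.dist_triangle (u := x) (v := w) (w := y'')
    have hxw : X.Adj x w := SimpleGraph.dist_eq_one_iff_adj.1 (by omega)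
    have hwy : X.dist w y = n := by
      have h3 := hX.dist_triangle (u := w) (v := y'') (w := y)
      have h4 := SimpleGraph.dist_eq_one_iff_adj.2 hy1.symm
      have h5 := CliB_adj hX (y := y) hxw
      omega
    have hwy' : X.dist w y' = n := by
      have h3 := hX.dist_triangle (u := w) (v := y'') (w := y')
      have h4 := SimpleGraph.dist_eq_one_iff_adj.2 hy2.symm
      have h5 := CliB_adj hX (y := y') hxw
      omega
    obtain ⟨s, hs1, hs2⟩ := CliB_step hB hfin y x (by omega)
    obtain ⟨s', hs1', hs2'⟩ := CliB_step hB hfin y' x (by omega)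
    have hus : X.Adj u s := hs2 u hu (by omega)
    have hws : X.Adj w s := hs2 w hxw (by omega)
    have hvs : X.Adj v s' := hs2' v hv (by omega)
    have hws' : X.Adj w s' := hs2' w hxw (by omega)
    have hss := ih w s s' hwy hwy' hws hws' (by omega) (by omega)
    have nxs : ¬ X.Adj x s := by
      intro h
      have := CliB_adj hX (y := y) h
      omega
    have nxs' : ¬ X.Adj x s' := by
      intro h
      have := CliB_adj hX (y := y') h
      omega
    have exs : x ≠ s := by
      intro h
      rw [← h] at hs1
      omega
    have exs' : x ≠ s' := by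
      intro h
      rw [← h] at hs1'
      omega
    have four1 : X.Adj s v → False := by
      intro h
      rcases hB.four x u s v hu hus h hv.symm exs huv with h3 | h3
      · exact nxs h3
      · exact huv' h3
    have four2 : X.Adj u s' → False := by
      intro h
      rcases hB.four x u s' v hu h hvs.symm hv.symm exs' huv with h3 | h3
      · exact nxs' h3
      · exact huv' h3
    rcases (near_iff hX).1 hss with h | h
    · exact four1 (h ▸ hvs.symm)
    · have eus : u ≠ s' := by
        intro h3
        exact huv' (h3 ▸ hvs.symm)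
      have esv : s ≠ v := by
        intro h3
        exact huv' (h3 ▸ hus)
      rcases hB.five x u s s' v hu hus h hvs.symm hv.symm exs exs' eus huv esv with
        h3 | h3 | h3 | h3 | h3
      · exact nxs h3
      · exact nxs' h3
      · exact four2 h3
      · exact huv' h3
      · exact four1 h3

/-- Let `y`, `y'` be adjacent or equal and at the same distance from `x`. A neighbour of `x` which
is closer to `y` and a neighbour of `x` which is closer to `y'` are adjacent or equal. -/
lemma rho_edge (hB : IsBridged X) (hfin : ∀ v : V, (X.neighborSet v).Finite) {y y' x u v : V}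
    (hy : X.dist y y' ≤ 1) (hxy : X.dist x y = X.dist x y') (hu : X.Adj x u) (hv : X.Adj x v)
    (h1 : X.dist u y + 1 = X.dist x y) (h2 : X.dist v y' + 1 = X.dist x y) :
    X.dist u v ≤ 1 := by
  exact CliB_main hB hfin hy (X.dist x y) x u v rfl hxy.symm hu hv h1 h2

end Pool.Agent.MP_b803e5_al
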