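import Mathlib
import Pool.Agent.Lib.MP_b803e5_al_B.CliA

/-!
# MP_b803e5_al, bridged graphs: steps towards one vertex do not expand
-/

set_option autoImplicit false

namespace Pool.Agent.MP_b803e5_al

variable {V : Type*} {X : SimpleGraph V}

namespace LipA

/-- the case of two vertices at the same distance -/
lemma same (hB : IsBridged X) {y x x' z z' : V} (h : X.dist x x' ≤ 1)
    (hn : X.dist x y = X.dist x' y) (h2 : 2 < X.dist x y) (hz : X.dist z y + 2 = X.dist x y)
    (hzm : ∀ m, X.Adj x m → X.dist m y + 1 = X.dist x y → X.Adj m z)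
    (hz' : X.dist z' y + 2 = X.dist x' y)
    (hzm' : ∀ m, X.Adj x' m → X.dist m y + 1 = X.dist x' y → X.Adj m z') :
    X.dist z z' ≤ 1 := by
  have hm : ∃ m, X.Adj x m ∧ X.Adj x' m ∧ X.dist m y + 1 = X.dist x y := by
    rcases (near_iff hB.connected).1 h with h1 | h1
    · subst h1
      obtain ⟨m, hm1, hm2⟩ := exists_between hB.connected (u := x) (v := y) (m := 1)
        (n := X.dist x y - 1) (by omega)
      have h3 := hB.connected.dist_triangle (u := x) (v := m) (w := y)
      have h4 : X.Adj x m := SimpleGraph.dist_eq_one_iff_adj.1 (by omega)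
      exact ⟨m, h4, h4, by omega⟩
    · exact hB.triangle y x x' h1 hn (by omega)
  obtain ⟨m, hm1, hm2, hm3⟩ := hm
  exact rho_clique hB (y := y) (x := m) (hzm m hm1 hm3) (hzm' m hm2 (by omega))
    (by omega) (by omega)

/-- the case of two vertices at consecutive distances -/
lemma next (hB : IsBridged X) {y x x' z z' : V} (h : X.dist x x' ≤ 1)
    (hn : X.dist x' y + 1 = X.dist x y) (hz : X.dist z y + 2 = X.dist x y)
    (hzm : ∀ m, X.Adj x m → X.dist m y + 1 = X.dist x y → X.Adj m z)
    (hzm' : ∀ m, X.Adj x' m → X.dist m y + 1 = X.dist x' y → X.Adj m z') :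
    X.Adj z z' := by
  have h1 : X.Adj x x' := by
    rcases (near_iff hB.connected).1 h with h1 | h1
    · rw [h1] at hn
      omega
    · exact h1
  exact hzm' z (hzm x' h1 hn) (by omega)

end LipA

/-- steps towards the same vertex from adjacent or equal vertices end in adjacent or equal
vertices -/
lemma step_near (hB : IsBridged X) {y x x' z z' : V} (h : X.dist x x' ≤ 1) (hz : Step X y x z)
    (hz' : Step X y x' z') : X.dist z z' ≤ 1 := by
  have h1 := hB.connected.dist_triangle (u := x) (v := x') (w := y)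
  have h2 := hB.connected.dist_triangle (u := x') (v := x) (w := y)
  have h0 : X.dist x' x ≤ 1 := by rwa [SimpleGraph.dist_comm]
  rcases hz with ⟨a1, rfl⟩ | ⟨a1, a2, a3⟩
  · rcases hz' with ⟨b1, rfl⟩ | ⟨b1, b2, b3⟩
    · rw [SimpleGraph.dist_self]
      exact Nat.zero_le _
    · rw [SimpleGraph.dist_comm]
      omega
  · rcases hz' with ⟨b1, rfl⟩ | ⟨b1, b2, b3⟩
    · omega
    · rcases lt_trichotomy (X.dist x y) (X.dist x' y) with h3 | h3 | h3
      · have h4 := LipA.next hB h0 (by omega) b2 b3 a3
        exact (SimpleGraph.dist_eq_one_iff_adj.2 h4.symm).le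
      · exact LipA.same hB h h3 a1 a2 a3 b2 b3
      · have h4 := LipA.next hB h (by omega) a2 a3 b3
        exact (SimpleGraph.dist_eq_one_iff_adj.2 h4).le

end Pool.Agent.MP_b803e5_al
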