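import Mathlib
import Pool.Agent.Lib.MP_b803e5_al_B.CliB

/-!
# MP_b803e5_al, bridged graphs: steps towards two adjacent vertices
-/

set_option autoImplicit false

namespace Pool.Agent.MP_b803e5_al

variable {V : Type*} {X : SimpleGraph V}

private lemma LipB_nb (hX : X.Connected) {x y : V} (h : 1 ≤ X.dist x y) :
    ∃ m, X.Adj x m ∧ X.dist m y + 1 = X.dist x y := by
  obtain ⟨m, h1, h2⟩ := exists_between hX (u := x) (v := y) (m := 1) (n := X.dist x y - 1)
    (by omega)
  have h3 := hX.dist_triangle (u := x) (v := m) (w := y)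
  have h4 : X.dist x m = 1 := by omega
  exact ⟨m, SimpleGraph.dist_eq_one_iff_adj.1 h4, by omega⟩

private lemma LipB_near (hX : X.Connected) {a b : V} (h : X.dist a b ≤ 1) (c : V) :
    X.dist a c ≤ X.dist b c + 1 ∧ X.dist b c ≤ X.dist a c + 1 := by
  have h1 := hX.dist_triangle (u := a) (v := b) (w := c)
  have h2 := hX.dist_triangle (u := b) (v := a) (w := c)
  rw [SimpleGraph.dist_comm (u := b) (v := a)] at h2
  omega

private lemma LipB_adj (hX : X.Connected) {a b : V} (h : X.Adj a b) (c : V) :
    X.dist a c ≤ X.dist b c + 1 ∧ X.dist b c ≤ X.dist a c + 1 :=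
  LipB_near hX (SimpleGraph.dist_eq_one_iff_adj.2 h).le c

private lemma LipB_tgt (hX : X.Connected) {y y' : V} (h : X.Adj y y') (a : V) :
    X.dist a y ≤ X.dist a y' + 1 ∧ X.dist a y' ≤ X.dist a y + 1 := by
  have h1 := LipB_adj hX h a
  rw [SimpleGraph.dist_comm (u := y) (v := a), SimpleGraph.dist_comm (u := y') (v := a)] at h1
  exact h1

private lemma LipB_ne (hX : X.Connected) {a b : V} (h : X.dist a b ≤ 1) (hne : a ≠ b) :
    X.Adj a b :=
  ((near_iff hX).1 h).resolve_left hne

/-- Invariant: `y` and `y'` are adjacent, `p` and `q` are adjacent or equal, both at distance `k`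
from `y`, and `q` is at distance `k - 1` from `y'`. Then a step from `p` towards `y` and a step from
`q` towards `y'` end in vertices with the same properties, `k` replaced by `k - 2`. -/
lemma inv_step (hB : IsBridged X) (hfin : ∀ v : V, (X.neighborSet v).Finite) {y y' p q z z' : V}
    (hy : X.Adj y y') (hpq : X.dist p q ≤ 1) (hk : 4 ≤ X.dist p y)
    (h1 : X.dist q y = X.dist p y) (h2 : X.dist q y' + 1 = X.dist p y) (hz : Step X y p z)
    (hz' : Step X y' q z') :
    X.dist z z' ≤ 1 ∧ X.dist z' y = X.dist z y ∧ X.dist z' y' + 1 = X.dist z y := by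
  have hX := hB.connected
  have hyy : X.dist y y' ≤ 1 := (SimpleGraph.dist_eq_one_iff_adj.2 hy).le
  have hqz' := step_dist hX hz'
  obtain ⟨hzd, hzm⟩ : X.dist z y + 2 = X.dist p y ∧
      ∀ m, X.Adj p m → X.dist m y + 1 = X.dist p y → X.Adj m z := by
    rcases hz with h | h
    · exact absurd h.1 (by clear * - hk; omega)
    · exact h.2
  obtain ⟨hzd', hzm'⟩ : X.dist z' y' + 2 = X.dist q y' ∧
      ∀ m, X.Adj q m → X.dist m y' + 1 = X.dist q y' → X.Adj m z' := by
    rcases hz' with h | h
    · exact absurd h.1 (by clear * - hk h2; omega)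
    · exact h.2
  have hz'y : X.dist z' y + 2 = X.dist p y := by
    have e1 := (LipB_tgt hX hy z').1
    have e2 := hX.dist_triangle (u := q) (v := z') (w := y)
    clear * - e1 e2 hqz' hzd' h1 h2
    omega
  have hzz : X.dist z' y = X.dist z y := by
    clear * - hz'y hzd
    omega
  refine ⟨?_, hzz, by clear * - hzd' h2 hzd; omega⟩
  -- the end of the cases (i) and (ii)
  have fin : ∀ w, X.Adj p w → X.Adj q w → X.dist w y' + 1 = X.dist q y' →
      X.dist z z' ≤ 1 := by
    intro w hpw hqw hw
    have e1 := (LipB_tgt hX hy w).1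
    have e2 := (LipB_adj hX hpw y).1
    have e3 : X.dist w y + 1 = X.dist p y := by
      clear * - e1 e2 hw h2
      omega
    exact rho_clique hB (y := y) (hzm w hpw e3) (hzm' w hqw hw) (by clear * - e3 hzd; omega)
      (by clear * - e3 hz'y; omega)
  rcases (near_iff hX).1 hpq with rfl | hpq
  · obtain ⟨w, hw1, hw2⟩ := LipB_nb hX (x := p) (y := y') (by clear * - hk h2; omega)
    exact fin w hw1 hw1 hw2
  have d1 := (LipB_adj hX hpq y').1
  have d2 := (LipB_tgt hX hy p).1
  rcases (show X.dist p y' = X.dist q y' ∨ X.dist p y' = X.dist p y by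
    clear * - d1 d2 h2
    omega) with h3 | h3
  · obtain ⟨w, hw1, hw2, hw3⟩ := hB.triangle y' p q hpq h3 (by clear * - hk h2 h3; omega)
    exact fin w hw1 hw2 (by clear * - hw3 h3; omega)
  -- the case (iii)
  clear d1 d2 fin
  obtain ⟨v, hpv, hv⟩ := LipB_nb hX (x := p) (y := y) (by clear * - hk; omega)
  have hvq : X.Adj v q := by
    refine LipB_ne hX (rho_edge hB hfin hyy h3.symm hpv hpq hv h2) ?_
    rintro rfl
    clear * - hv h1
    omega
  obtain ⟨w', hqw, hw⟩ := LipB_nb hX (x := q) (y := y') (by clear * - hk h2; omega)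
  have hwy : X.dist w' y + 1 = X.dist p y := by
    have e1 := (LipB_tgt hX hy w').1
    have e2 := (LipB_adj hX hqw y).1
    clear * - e1 e2 hw h1 h2
    omega
  have hvz : X.Adj v z := hzm v hpv hv
  have hwz' : X.Adj w' z' := hzm' w' hqw hw
  have hvw := rho_clique hB (y := y) hvq.symm hqw (by clear * - hv h1; omega)
    (by clear * - hwy h1; omega)
  rcases (near_iff hX).1 hvw with rfl | hvw
  · exact rho_clique hB (y := y) hvz hwz' (by clear * - hzd hv; omega)
      (by clear * - hz'y hv; omega)
  obtain ⟨u, hu⟩ := step_exists hB hfin y q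
  obtain ⟨hud, hum⟩ : X.dist u y + 2 = X.dist q y ∧
      ∀ m, X.Adj q m → X.dist m y + 1 = X.dist q y → X.Adj m u := by
    rcases hu with h | h
    · exact absurd h.1 (by clear * - hk h1; omega)
    · exact h.2
  have hvu : X.Adj v u := hum v hvq.symm (by clear * - hv h1; omega)
  have hwu : X.Adj w' u := hum w' hqw (by clear * - hwy h1; omega)
  have hzu := rho_clique hB (y := y) hvz hvu (by clear * - hzd hv; omega)
    (by clear * - hud h1 hv; omega)
  have hzu' := rho_clique hB (y := y) hwz' hwu (by clear * - hz'y hwy; omega)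
    (by clear * - hud h1 hwy; omega)
  by_contra hcon
  have azu : X.Adj z u := by
    refine LipB_ne hX hzu ?_
    rintro rfl
    rw [SimpleGraph.dist_comm] at hzu'
    exact hcon hzu'
  have auz' : X.Adj u z' := by
    refine (LipB_ne hX hzu' ?_).symm
    rintro rfl
    exact hcon hzu
  have nwz : ¬ X.Adj w' z := fun h =>
    hcon (rho_clique hB (y := y) h hwz' (by clear * - hzd hwy; omega)
      (by clear * - hz'y hwy; omega))
  have dvy' : X.dist v y' = X.dist q y' := by
    have e1 := (LipB_adj hX hvq y').2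
    have e2 := (LipB_adj hX hvw y').1
    by_contra hne
    exact hcon (rho_clique hB (y := y) hvz
      (hzm' v hvq.symm (by clear * - e1 e2 hne hw; omega))
      (by clear * - hzd hv; omega) (by clear * - hz'y hv; omega))
  have duy' : X.dist u y' + 1 = X.dist q y' := by
    have e1 := (LipB_adj hX auz' y').1
    have e2 := (LipB_adj hX hvu y').1
    clear * - e1 e2 hzd' dvy'
    omega
  have dzy' : X.dist z y' = X.dist q y' := by
    have e1 := (LipB_adj hX hvz y').1
    have e2 := (LipB_tgt hX hy z).2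
    by_contra hne
    have e3 := rho_clique hB (y := y') hvz hvw
      (by clear * - e1 e2 hne dvy' hzd h2; omega) (by clear * - hw dvy'; omega)
    refine nwz (LipB_ne hX e3 ?_).symm
    rintro rfl
    clear * - hzd hwy
    omega
  obtain ⟨v2, hzv2, hv2⟩ := LipB_nb hX (x := z) (y := y) (by clear * - hk hzd; omega)
  have dv2 : X.dist v2 y' = X.dist z y := by
    have e1 := (LipB_tgt hX hy v2).2
    have e2 := (LipB_adj hX hzv2 y').1
    clear * - e1 e2 hv2 dzy' hzd h2
    omega
  have av2u : X.Adj v2 u := by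
    refine LipB_ne hX (rho_clique hB (y := y') hzv2 azu (by clear * - dv2 dzy' hzd h2; omega)
      (by clear * - duy' dzy'; omega)) ?_
    rintro rfl
    clear * - hv2 hud h1 hzd
    omega
  have av2z' : X.Adj v2 z' := by
    refine LipB_ne hX (rho_edge hB hfin hyy (x := u) (by clear * - hud h1 duy' h2; omega)
      av2u.symm auz' (by clear * - hv2 hzd hud h1; omega)
      (by clear * - hzd' h2 hud h1; omega)) ?_
    rintro rfl
    clear * - hv2 hzz
    omega
  obtain ⟨w2, hzw2, hw2⟩ := LipB_nb hX (x := z') (y := y') (by clear * - hk hzd' h2; omega)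
  have dw2 : X.dist w2 y + 1 = X.dist z' y := by
    have e1 := (LipB_tgt hX hy w2).1
    have e2 := (LipB_adj hX hzw2 y).1
    clear * - e1 e2 hw2 hzd' h2 hz'y
    omega
  have e3 := rho_clique hB (y := y) av2z'.symm hzw2 (by clear * - hv2 hzz; omega) dw2
  have e4 := (LipB_near hX e3 y').1
  clear * - e4 hw2 dv2 hzd hzd' h2
  omega

end Pool.Agent.MP_b803e5_al
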