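import Mathlib
import Pool.Agent.Lib.MP_b803e5_al_B.Defs

/-!
# MP_b803e5_al, bridged graphs: words
-/

set_option autoImplicit false

namespace Pool.Agent.MP_b803e5_al

variable {V : Type*} {X : SimpleGraph V} {G : Type*} [Group G] [MulAction G V] {n : ℕ}
  {f : Fin n → G} {x0 : V}

lemma len_le2 (hX : X.Connected) (hG : ∀ (g : G) (u v : V), X.Adj u v → X.Adj (g • u) (g • v))
    (hf : ∀ i, X.dist x0 (f i • x0) ≤ 2) (w : List (Fin n)) :
    X.dist x0 (ev f w • x0) ≤ 2 * w.length := by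
  induction w with
  | nil => simp
  | cons a w ih =>
    rw [ev_cons, mul_smul, List.length_cons]
    have h1 := hX.dist_triangle (u := x0) (v := f a • x0) (w := f a • ev f w • x0)
    rw [dist_smul hX hG] at h1
    have := hf a
    omega

lemma exists_word2 (hX : X.Connected)
    (hG : ∀ (g : G) (u v : V), X.Adj u v → X.Adj (g • u) (g • v))
    (htr : ∀ u v : V, ∃ g : G, g • u = v)
    (hS : ∀ g : G, X.dist x0 (g • x0) ≤ 2 → ∃ i, f i = g) {m : ℕ} (hm : 1 ≤ m) :
    ∀ g : G, X.dist x0 (g • x0) ≤ 2 * m → ∃ w : List (Fin n), w.length = m ∧ ev f w = g := by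
  induction m, hm using Nat.le_induction with
  | base =>
    intro g hg
    obtain ⟨i, hi⟩ := hS g (by omega)
    exact ⟨[i], rfl, by simp [hi]⟩
  | succ m hm ih =>
    intro g hg
    obtain ⟨z, hz1, hz2⟩ := exists_between hX (m := 2) (n := 2 * m)
      (by omega : X.dist x0 (g • x0) ≤ 2 + 2 * m)
    obtain ⟨h, rfl⟩ := htr x0 z
    obtain ⟨i, hi⟩ := hS h hz1
    have h1 : X.dist x0 ((h⁻¹ * g) • x0) ≤ 2 * m := by
      rw [← dist_smul hX hG h, mul_smul, smul_inv_smul]
      exact hz2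
    obtain ⟨w, hw, hwe⟩ := ih _ h1
    exact ⟨i :: w, by simp [hw], by rw [ev_cons, hwe, hi, mul_inv_cancel_left]⟩

lemma least_len (hX : X.Connected)
    (hG : ∀ (g : G) (u v : V), X.Adj u v → X.Adj (g • u) (g • v))
    (htr : ∀ u v : V, ∃ g : G, g • u = v)
    (hS : ∀ g : G, X.dist x0 (g • x0) ≤ 2 → ∃ i, f i = g) {w : List (Fin n)}
    (hw : IsShortlexLeast f w) (h2 : 2 ≤ w.length) :
    2 * w.length ≤ X.dist x0 (ev f w • x0) + 1 := by
  by_contra hcon
  obtain ⟨w', hw', hwe⟩ := exists_word2 hX hG htr hS (m := w.length - 1) (by omega) (ev f w)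
    (by omega)
  have h1 := hw.length_le f (w := w') hwe
  omega

end Pool.Agent.MP_b803e5_al
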