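import Mathlib
import Pool.Agent.Lib.MP_b803e5_al_B.CliA
import Pool.Agent.Lib.MP_b803e5_al_B.WrdA

/-!
# MP_b803e5_al, bridged graphs: the first letter of a least word is a step
-/

set_option autoImplicit false

namespace Pool.Agent.MP_b803e5_al

variable {V : Type*} {X : SimpleGraph V} {G : Type*} [Group G] [MulAction G V] {n : ℕ}
  {f : Fin n → G} {x0 : V}

/-- The letters are ordered by decreasing number of common neighbours of `x0` and its image. If the
first letter of a least word brings us two steps closer to the target, it is a step towards the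
target. -/
lemma fstep (hB : IsBridged X) (hfin : ∀ v : V, (X.neighborSet v).Finite)
    (hG : ∀ (g : G) (u v : V), X.Adj u v → X.Adj (g • u) (g • v))
    (htr : ∀ u v : V, ∃ g : G, g • u = v) (hf : ∀ i, X.dist x0 (f i • x0) ≤ 2)
    (hS : ∀ g : G, X.dist x0 (g • x0) ≤ 2 → ∃ i, f i = g)
    (hN : ∀ i j, i ≤ j → (Mid X x0 (f j • x0)).ncard ≤ (Mid X x0 (f i • x0)).ncard)
    {a : Fin n} {v : List (Fin n)} (hw : IsShortlexLeast f (a :: v))
    (h : X.dist x0 (ev f v • x0) + 2 = X.dist x0 (ev f (a :: v) • x0)) :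
    Step X (ev f (a :: v) • x0) x0 (f a • x0) := by
  have hX := hB.connected
  set g := ev f (a :: v) with hg
  have hzy : X.dist (f a • x0) (g • x0) = X.dist x0 (ev f v • x0) := by
    rw [hg, ev_cons, mul_smul, dist_smul hX hG]
  by_cases hD : X.dist x0 (g • x0) ≤ 2
  · have h1 : X.dist (f a • x0) (g • x0) = 0 := by omega
    exact Or.inl ⟨hD, hX.dist_eq_zero_iff.1 h1⟩
  · push Not at hD
    obtain ⟨z1, hz1⟩ := step_exists hB hfin (g • x0) x0
    have hz1d := step_dist hX hz1
    rcases hz1 with ⟨h1, _⟩ | ⟨_, h2, h3⟩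
    · omega
    obtain ⟨k, rfl⟩ := htr x0 z1
    obtain ⟨i, hi⟩ := hS k hz1d
    have hlen := len_le2 hX hG hf v
    have hv1 : 1 ≤ v.length := by omega
    have h4 : X.dist x0 ((k⁻¹ * g) • x0) ≤ 2 * v.length := by
      rw [← dist_smul hX hG k, mul_smul, smul_inv_smul]
      omega
    obtain ⟨v', hv', hve⟩ := exists_word2 hX hG htr hS hv1 _ h4
    have hword : ev f (i :: v') = g := by
      rw [ev_cons, hve, hi, mul_inv_cancel_left]
    have hai : a ≤ i := by
      by_contra hlt
      rw [not_le] at hlt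
      exact hw (i :: v') hword (List.Shortlex.of_lex (by simp [hv']) (List.Lex.rel hlt))
    have hcard := hN a i hai
    have hrho : ∀ m ∈ Mid X x0 (f a • x0), X.Adj x0 m ∧
        X.dist m (g • x0) + 1 = X.dist x0 (g • x0) := by
      intro m hm
      have h5 := hX.dist_triangle (u := m) (v := f a • x0) (w := g • x0)
      have h6 := SimpleGraph.dist_eq_one_iff_adj.2 hm.2
      have h7 := hX.dist_triangle (u := x0) (v := m) (w := g • x0)
      have h8 := SimpleGraph.dist_eq_one_iff_adj.2 hm.1
      exact ⟨hm.1, by omega⟩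
    have hsub : Mid X x0 (f a • x0) ⊆ Mid X x0 (f i • x0) := by
      intro m hm
      have h5 := hrho m hm
      refine ⟨h5.1, ?_⟩
      rw [hi]
      exact h3 m h5.1 h5.2
    have hfi : (Mid X x0 (f i • x0)).Finite := (hfin x0).subset fun m hm => hm.1
    have heq := Set.eq_of_subset_of_ncard_le hsub hcard hfi
    refine Or.inr ⟨hD, by omega, fun m hm1 hm2 => ?_⟩
    have h5 : m ∈ Mid X x0 (f i • x0) := ⟨hm1, by rw [hi]; exact h3 m hm1 hm2⟩
    rw [← heq] at h5
    exact h5.2

end Pool.Agent.MP_b803e5_al
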