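import Mathlib
import Pool.Agent.Lib.MP_b803e5_al_B.WrdB

/-!
# MP_b803e5_al, bridged graphs: tight words are trajectories
-/

set_option autoImplicit false

namespace Pool.Agent.MP_b803e5_al

variable {V : Type*} {X : SimpleGraph V} {G : Type*} [Group G] [MulAction G V] {n : ℕ}
  {f : Fin n → G} {x0 : V}

lemma step_smul (hX : X.Connected) (hG : ∀ (g : G) (u v : V), X.Adj u v → X.Adj (g • u) (g • v))
    (g : G) {y x z : V} (h : Step X y x z) : Step X (g • y) (g • x) (g • z) := by
  rcases h with ⟨h1, h2⟩ | ⟨h1, h2, h3⟩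
  · left
    rw [dist_smul hX hG]
    exact ⟨h1, by rw [h2]⟩
  · right
    rw [dist_smul hX hG, dist_smul hX hG]
    refine ⟨h1, h2, fun m hm hd => ?_⟩
    have h4 : X.Adj x (g⁻¹ • m) := by
      have := hG g⁻¹ _ _ hm
      rwa [inv_smul_smul] at this
    have h5 : X.dist (g⁻¹ • m) y + 1 = X.dist x y := by
      rw [← hd, ← dist_smul hX hG g (g⁻¹ • m) y, smul_inv_smul]
    have h6 := hG g _ _ (h3 _ h4 h5)
    rwa [smul_inv_smul] at h6

/-- a least word whose length is exactly half of the distance is a trajectory -/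
lemma tight_traj (hB : IsBridged X) (hfin : ∀ v : V, (X.neighborSet v).Finite)
    (hG : ∀ (g : G) (u v : V), X.Adj u v → X.Adj (g • u) (g • v))
    (htr : ∀ u v : V, ∃ g : G, g • u = v) (hf : ∀ i, X.dist x0 (f i • x0) ≤ 2)
    (hS : ∀ g : G, X.dist x0 (g • x0) ≤ 2 → ∃ i, f i = g)
    (hN : ∀ i j, i ≤ j → (Mid X x0 (f j • x0)).ncard ≤ (Mid X x0 (f i • x0)).ncard)
    (w : List (Fin n)) : ∀ p : G, IsShortlexLeast f w →
      X.dist x0 (ev f w • x0) = 2 * w.length →
      Traj X ((p * ev f w) • x0) (fun t => (p * ev f (w.take t)) • x0) := by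
  have hX := hB.connected
  induction w with
  | nil =>
    intro p _ _ t
    left
    simp
  | cons a v ih =>
    intro p hw hD
    have hv : IsShortlexLeast f v := IsShortlexLeast.right f (u := [a]) hw
    have h1 := len_le2 hX hG hf v
    have h2 : X.dist x0 (ev f (a :: v) • x0) ≤ 2 + X.dist x0 (ev f v • x0) := by
      have h3 := hX.dist_triangle (u := x0) (v := f a • x0) (w := ev f (a :: v) • x0)
      have h4 : X.dist (f a • x0) (ev f (a :: v) • x0) = X.dist x0 (ev f v • x0) := by
        rw [ev_cons, mul_smul, dist_smul hX hG]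
      have h5 := hf a
      omega
    rw [List.length_cons] at hD
    have hD' : X.dist x0 (ev f v • x0) = 2 * v.length := by omega
    have hs := fstep hB hfin hG htr hf hS hN hw (by omega)
    have hs' := step_smul hX hG p hs
    rintro (_ | t)
    · simpa [mul_smul] using hs'
    · have h6 := ih (p * f a) hv hD' t
      simpa [mul_assoc] using h6

end Pool.Agent.MP_b803e5_al
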