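import Mathlib
import Pool.Agent.Lib.MP_b803e5_al_B.LipA

/-!
# MP_b803e5_al, bridged graphs: trajectories towards one vertex
-/

set_option autoImplicit false

namespace Pool.Agent.MP_b803e5_al

variable {V : Type*} {X : SimpleGraph V}

lemma traj_exists (hB : IsBridged X) (hfin : ∀ v : V, (X.neighborSet v).Finite) (y x : V) :
    ∃ c : ℕ → V, c 0 = x ∧ Traj X y c := by
  choose s hs using fun v => step_exists hB hfin y v
  refine ⟨fun t => s^[t] x, rfl, fun t => ?_⟩
  change Step X y (s^[t] x) (s^[t + 1] x)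
  rw [Function.iterate_succ_apply']
  exact hs _

lemma traj_near (hB : IsBridged X) {y : V} {c c' : ℕ → V} (hc : Traj X y c) (hc' : Traj X y c')
    (h : X.dist (c 0) (c' 0) ≤ 1) (t : ℕ) : X.dist (c t) (c' t) ≤ 1 := by
  induction t with
  | zero => exact h
  | succ t ih => exact step_near hB ih (hc t) (hc' t)

lemma traj_far (hB : IsBridged X) (hfin : ∀ v : V, (X.neighborSet v).Finite) {y : V} (m : ℕ) :
    ∀ c c' : ℕ → V, Traj X y c → Traj X y c' → X.dist (c 0) (c' 0) ≤ m + 1 → ∀ t : ℕ,
      X.dist (c t) (c' t) ≤ m + 1 := by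
  induction m with
  | zero =>
    intro c c' hc hc' h t
    rw [zero_add] at h ⊢
    exact traj_near hB hc hc' h t
  | succ m ih =>
    intro c c' hc hc' h t
    obtain ⟨b, hb1, hb2⟩ := exists_between hB.connected (m := m + 1) (n := 1) h
    obtain ⟨c'', h0, hc''⟩ := traj_exists hB hfin y b
    have h1 := ih c c'' hc hc'' (by rw [h0]; exact hb1) t
    have h2 := traj_near hB hc'' hc' (by rw [h0]; exact hb2) t
    have h3 := hB.connected.dist_triangle (u := c t) (v := c'' t) (w := c' t)
    omega

end Pool.Agent.MP_b803e5_al
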