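import Mathlib
import Pool.Agent.Lib.MP_b803e5_al_B.PthA
import Pool.Agent.Lib.MP_b803e5_al_B.TrjA

/-!
# MP_b803e5_al, bridged graphs: least words are close to trajectories
-/

set_option autoImplicit false

namespace Pool.Agent.MP_b803e5_al

variable {V : Type*} {X : SimpleGraph V} {G : Type*} [Group G] [MulAction G V] {n : ℕ}
  {f : Fin n → G} {x0 : V}

/-- a least word with slack at most one is close to all trajectories -/
lemma path_close (hB : IsBridged X) (hfin : ∀ v : V, (X.neighborSet v).Finite)
    (hG : ∀ (g : G) (u v : V), X.Adj u v → X.Adj (g • u) (g • v))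
    (htr : ∀ u v : V, ∃ g : G, g • u = v) (hf : ∀ i, X.dist x0 (f i • x0) ≤ 2)
    (hS : ∀ g : G, X.dist x0 (g • x0) ≤ 2 → ∃ i, f i = g)
    (hN : ∀ i j, i ≤ j → (Mid X x0 (f j • x0)).ncard ≤ (Mid X x0 (f i • x0)).ncard)
    (w : List (Fin n)) : ∀ (p : G) (c : ℕ → V), IsShortlexLeast f w →
      2 * w.length ≤ X.dist x0 (ev f w • x0) + 1 → Traj X ((p * ev f w) • x0) c →
      X.dist (p • x0) (c 0) ≤ 1 → ∀ t : ℕ,
      X.dist ((p * ev f (w.take t)) • x0) (c t) ≤ 5 := by
  have hX := hB.connected
  induction w with
  | nil =>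
    intro p c _ _ hc h0 t
    rw [ev_nil, mul_one] at hc
    rw [List.take_nil, ev_nil, mul_one]
    have key : ∀ t, X.dist (c t) (p • x0) ≤ 1 := by
      intro t
      induction t with
      | zero => rwa [SimpleGraph.dist_comm]
      | succ t ih =>
        rcases hc t with ⟨_, h⟩ | ⟨h, _⟩
        · rw [h, SimpleGraph.dist_self]
          omega
        · omega
    have := key t
    rw [SimpleGraph.dist_comm]
    omega
  | cons a v ih =>
    intro p c hw hlen hc h0 t
    have hv : IsShortlexLeast f v := IsShortlexLeast.right f (u := [a]) hw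
    have hD1 := len_le2 hX hG hf v
    have hD2 : X.dist x0 (ev f (a :: v) • x0) ≤ X.dist x0 (ev f v • x0) + 2 := by
      have h1 := hX.dist_triangle (u := x0) (v := f a • x0) (w := ev f (a :: v) • x0)
      have h2 : X.dist (f a • x0) (ev f (a :: v) • x0) = X.dist x0 (ev f v • x0) := by
        rw [ev_cons, mul_smul, dist_smul hX hG]
      rw [h2] at h1
      have := hf a
      omega
    rw [List.length_cons] at hlen
    have hQ : (p * ev f (a :: v)) • x0 = (p * f a * ev f v) • x0 := by
      rw [ev_cons, mul_assoc]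
    cases t with
    | zero =>
      rw [List.take_zero, ev_nil, mul_one]
      omega
    | succ t =>
      rw [List.take_succ_cons, ev_cons, ← mul_assoc]
      have hc' : Traj X ((p * f a * ev f v) • x0) (fun t => c (t + 1)) := by
        intro t
        rw [← hQ]
        exact hc (t + 1)
      by_cases hcase : X.dist x0 (ev f v • x0) + 2 = X.dist x0 (ev f (a :: v) • x0)
      · have hs := step_smul hX hG p (fstep hB hfin hG htr hf hS hN hw hcase)
        have hs0 := hc 0
        rw [mul_smul] at hs0
        have h1 := step_near hB h0 hs hs0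
        rw [← mul_smul] at h1
        exact ih (p * f a) (fun t => c (t + 1)) hv (by omega) hc' h1 t
      · have hD3 : X.dist x0 (ev f v • x0) = 2 * v.length := by omega
        have h2 := tight_traj hB hfin hG htr hf hS hN v (p * f a) hv hD3
        refine traj_far hB hfin 4 _ _ h2 hc' ?_ t
        change X.dist ((p * f a * ev f (v.take 0)) • x0) (c 1) ≤ 4 + 1
        rw [List.take_zero, ev_nil, mul_one]
        have h3 := hX.dist_triangle (u := (p * f a) • x0) (v := p • x0) (w := c 1)
        have h4 := hX.dist_triangle (u := p • x0) (v := c 0) (w := c 1)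
        have h5 := step_dist hX (hc 0)
        have h6 : X.dist ((p * f a) • x0) (p • x0) ≤ 2 := by
          rw [mul_smul, dist_smul hX hG, SimpleGraph.dist_comm]
          exact hf a
        have h7 : X.dist (c 0) (c 1) ≤ 2 := h5
        omega

/-- every least word is close to all trajectories -/
lemma path_close_all (hB : IsBridged X) (hfin : ∀ v : V, (X.neighborSet v).Finite)
    (hG : ∀ (g : G) (u v : V), X.Adj u v → X.Adj (g • u) (g • v))
    (htr : ∀ u v : V, ∃ g : G, g • u = v) (hf : ∀ i, X.dist x0 (f i • x0) ≤ 2)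
    (hS : ∀ g : G, X.dist x0 (g • x0) ≤ 2 → ∃ i, f i = g)
    (hN : ∀ i j, i ≤ j → (Mid X x0 (f j • x0)).ncard ≤ (Mid X x0 (f i • x0)).ncard)
    {w : List (Fin n)} (hw : IsShortlexLeast f w) {c : ℕ → V} (hc : Traj X (ev f w • x0) c)
    (h0 : c 0 = x0) (t : ℕ) : X.dist (ev f (w.take t) • x0) (c t) ≤ 5 := by
  have hX := hB.connected
  have hfar : ∀ y : V, X.dist (c 0) y ≤ 2 → Traj X y c → ∀ t, c (t + 1) = y := by
    intro y hy hc t
    induction t with
    | zero =>
      rcases hc 0 with ⟨_, h⟩ | ⟨h, _⟩
      · exact h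
      · omega
    | succ t ih =>
      rcases hc (t + 1) with ⟨_, h⟩ | ⟨h, _⟩
      · exact h
      · rw [ih, SimpleGraph.dist_self] at h
        omega
  match w, hw, hc with
  | [], hw, hc =>
    rw [ev_nil, one_smul] at hc
    rw [List.take_nil, ev_nil, one_smul]
    cases t with
    | zero => rw [h0, SimpleGraph.dist_self]; omega
    | succ t =>
      rw [hfar x0 (by rw [h0, SimpleGraph.dist_self]; omega) hc t, SimpleGraph.dist_self]
      omega
  | [a], hw, hc =>
    rw [ev_cons, ev_nil, mul_one] at hc
    cases t with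
    | zero =>
      rw [List.take_zero, ev_nil, one_smul, h0, SimpleGraph.dist_self]
      omega
    | succ t =>
      rw [hfar _ (by rw [h0]; exact hf a) hc t, List.take_succ_cons, List.take_nil, ev_cons,
        ev_nil, mul_one, SimpleGraph.dist_self]
      omega
  | a :: b :: v, hw, hc =>
    have h2 : 2 ≤ (a :: b :: v).length := by simp
    have h3 := path_close hB hfin hG htr hf hS hN (a :: b :: v) 1 c hw
      (least_len hX hG htr hS hw h2) (by rw [one_mul]; exact hc)
      (by rw [one_smul, h0, SimpleGraph.dist_self]; omega) t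
    rwa [one_mul] at h3

end Pool.Agent.MP_b803e5_al
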