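import Mathlib
import Pool.Agent.Lib.MP_b803e5_al_B.TrjA
import Pool.Agent.Lib.MP_b803e5_al_B.LipB

/-!
# MP_b803e5_al, bridged graphs: trajectories towards nearby vertices
-/

set_option autoImplicit false

namespace Pool.Agent.MP_b803e5_al

variable {V : Type*} {X : SimpleGraph V}

/-- adjacent targets, one of them closer -/
private lemma TrjB_adj (hB : IsBridged X) (hfin : ∀ v : V, (X.neighborSet v).Finite) {y y' : V}
    {c c' : ℕ → V} (hc : Traj X y c) (hc' : Traj X y' c') (h0 : c 0 = c' 0)
    (hy : X.Adj y y') (hd : X.dist (c 0) y' + 1 = X.dist (c 0) y) (t : ℕ) :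
    X.dist (c t) (c' t) ≤ 2 := by
  have key : (X.dist (c t) (c' t) ≤ 1 ∧ X.dist (c' t) y = X.dist (c t) y ∧
      X.dist (c' t) y' + 1 = X.dist (c t) y) ∨ (X.dist (c t) y ≤ 1 ∧ c' t = y') := by
    induction t with
    | zero =>
      left
      rw [← h0]
      exact ⟨by simp, rfl, hd⟩
    | succ t ih =>
      rcases ih with ⟨h1, h2, h3⟩ | ⟨h1, h2⟩
      · by_cases hk : 4 ≤ X.dist (c t) y
        · left
          exact inv_step hB hfin hy h1 hk h2 h3 (hc t) (hc' t)
        · right
          constructor
          · rcases hc t with ⟨-, h4⟩ | ⟨-, h4, -⟩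
            · rw [h4]
              simp
            · omega
          · rcases hc' t with ⟨-, h4⟩ | ⟨h4, -, -⟩
            · exact h4
            · omega
      · right
        constructor
        · rcases hc t with ⟨-, h4⟩ | ⟨h4, -, -⟩
          · rw [h4]
            simp
          · omega
        · rcases hc' t with ⟨-, h4⟩ | ⟨h4, -, -⟩
          · exact h4
          · rw [h2, SimpleGraph.dist_self] at h4
            omega
  rcases key with ⟨h1, -, -⟩ | ⟨h1, h2⟩
  · omega
  · rw [h2]
    have h3 := hB.connected.dist_triangle (u := c t) (v := y) (w := y')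
    have h4 : X.dist y y' = 1 := SimpleGraph.dist_eq_one_iff_adj.2 hy
    omega

/-- targets at distance at most one -/
private lemma TrjB_one (hB : IsBridged X) (hfin : ∀ v : V, (X.neighborSet v).Finite) {y y' : V}
    {c c' : ℕ → V} (hc : Traj X y c) (hc' : Traj X y' c') (h0 : c 0 = c' 0)
    (hy : X.dist y y' ≤ 1) (t : ℕ) : X.dist (c t) (c' t) ≤ 4 := by
  by_cases hyy : y = y'
  · subst hyy
    have h1 := traj_near hB hc hc' (by rw [h0]; simp) t
    omega
  · have h1 : X.dist y y' = 1 := by
      have h2 := hB.connected.pos_dist_of_ne hyy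
      omega
    have hadj : X.Adj y y' := SimpleGraph.dist_eq_one_iff_adj.1 h1
    have h2 := hB.connected.dist_triangle (u := c 0) (v := y) (w := y')
    have h3 := hB.connected.dist_triangle (u := c 0) (v := y') (w := y)
    rw [SimpleGraph.dist_comm (u := y') (v := y)] at h3
    rcases lt_trichotomy (X.dist (c 0) y) (X.dist (c 0) y') with h4 | h4 | h4
    · have h5 := TrjB_adj hB hfin hc' hc h0.symm hadj.symm
        (by rw [← h0]; omega) t
      rw [SimpleGraph.dist_comm] at h5
      omega
    · have h5 : 1 ≤ X.dist y (c 0) := by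
        rw [SimpleGraph.dist_comm]
        by_contra h6
        have h7 : X.dist (c 0) y = 0 := by omega
        have h8 : c 0 = y := (hB.connected.dist_eq_zero_iff).1 h7
        have h9 : c 0 = y' := (hB.connected.dist_eq_zero_iff).1 (h4 ▸ h7)
        exact hyy (h8.symm.trans h9)
      obtain ⟨w, hw1, hw2, hw3⟩ := hB.triangle (c 0) y y' hadj
        (by rw [SimpleGraph.dist_comm, h4, SimpleGraph.dist_comm]) h5
      rw [SimpleGraph.dist_comm, SimpleGraph.dist_comm (u := y)] at hw3
      obtain ⟨d, hd0, hd⟩ := traj_exists hB hfin w (c 0)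
      have e1 := TrjB_adj hB hfin hc hd hd0.symm hw1 hw3 t
      have e2 := TrjB_adj hB hfin hc' hd (h0.symm.trans hd0.symm) hw2
        (by rw [← h0]; omega) t
      have e3 := hB.connected.dist_triangle (u := c t) (v := d t) (w := c' t)
      rw [SimpleGraph.dist_comm (u := d t)] at e3
      omega
    · have h5 := TrjB_adj hB hfin hc hc' h0 hadj (by omega) t
      omega

/-- trajectories from the same vertex towards vertices at distance at most two stay near each
other -/
lemma traj_target (hB : IsBridged X) (hfin : ∀ v : V, (X.neighborSet v).Finite) {y y' : V}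
    {c c' : ℕ → V} (hc : Traj X y c) (hc' : Traj X y' c') (h0 : c 0 = c' 0)
    (hy : X.dist y y' ≤ 2) (t : ℕ) : X.dist (c t) (c' t) ≤ 8 := by
  obtain ⟨z, hz1, hz2⟩ := exists_between hB.connected (m := 1) (n := 1)
    (by omega : X.dist y y' ≤ 1 + 1)
  obtain ⟨d, hd0, hd⟩ := traj_exists hB hfin z (c 0)
  have e1 := TrjB_one hB hfin hc hd hd0.symm hz1 t
  have e2 := TrjB_one hB hfin hd hc' (hd0.trans h0) hz2 t
  have e3 := hB.connected.dist_triangle (u := c t) (v := d t) (w := c' t)
  omega

end Pool.Agent.MP_b803e5_al
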