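import Mathlib
import Pool.Agent.Lib.MP_b803e5_al_B.PthB
import Pool.Agent.Lib.MP_b803e5_al_B.TrjB

/-!
# MP_b803e5_al, bridged graphs: the main theorem
-/

set_option autoImplicit false

namespace Pool.Agent.MP_b803e5_al

/-- **Main theorem**: a group acting by automorphisms, transitively on vertices and with finite
stabilisers, on a locally finite bridged graph is shortlex automatic. -/
theorem shortlexAutomatic_of_bridged {V : Type*} {X : SimpleGraph V} {G : Type*} [Group G]
    [MulAction G V] (hB : IsBridged X) (hfin : ∀ v : V, (X.neighborSet v).Finite)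
    (hG : ∀ (g : G) (u v : V), X.Adj u v → X.Adj (g • u) (g • v))
    (htr : ∀ u v : V, ∃ g : G, g • u = v)
    (hst : ∀ v : V, {g : G | g • v = v}.Finite) : ShortlexAutomatic G := by
  have hX := hB.connected
  obtain ⟨x0⟩ : Nonempty V := hX.nonempty
  have hB1 : ∀ v, {z | X.dist v z ≤ 1}.Finite := by
    intro v
    refine ((hfin v).union (Set.finite_singleton v)).subset ?_
    intro z hz
    change X.dist v z ≤ 1 at hz
    rcases Nat.le_one_iff_eq_zero_or_eq_one.1 hz with h | h
    · right
      exact ((hX.dist_eq_zero_iff).1 h).symm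
    · left
      exact SimpleGraph.dist_eq_one_iff_adj.1 h
  have hBn : ∀ m : ℕ, {z | X.dist x0 z ≤ m}.Finite := by
    intro m
    induction m with
    | zero =>
      refine (Set.finite_singleton x0).subset fun z hz => ?_
      change X.dist x0 z ≤ 0 at hz
      exact ((hX.dist_eq_zero_iff).1 (Nat.le_zero.1 hz)).symm
    | succ m ih =>
      refine (ih.biUnion fun v _ => hB1 v).subset fun z hz => ?_
      obtain ⟨y, hy1, hy2⟩ := exists_between hX (m := m) (n := 1) hz
      exact Set.mem_biUnion hy1 hy2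
  have hto : ∀ v : V, {g : G | g • x0 = v}.Finite := by
    intro v
    obtain ⟨h, hh⟩ := htr x0 v
    refine ((hst x0).image fun g => h * g).subset fun g hg => ?_
    change g • x0 = v at hg
    exact ⟨h⁻¹ * g, by
      change (h⁻¹ * g) • x0 = x0
      rw [mul_smul, hg, ← hh, inv_smul_smul], mul_inv_cancel_left h g⟩
  have hFn : ∀ m : ℕ, {g : G | X.dist x0 (g • x0) ≤ m}.Finite := by
    intro m
    refine ((hBn m).biUnion fun v _ => hto v).subset fun g hg => ?_
    exact Set.mem_biUnion (show g • x0 ∈ {z | X.dist x0 z ≤ m} from hg) rfl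
  obtain ⟨n, f, hf, hS, hN⟩ := exists_enum (hFn 2) fun g => (Mid X x0 (g • x0)).ncard
  have hf' : ∀ i, X.dist x0 (f i • x0) ≤ 2 := fun i => hf i
  have hS' : ∀ g : G, X.dist x0 (g • x0) ≤ 2 → ∃ i, f i = g := fun g hg => hS g hg
  have hgen : ∀ g : G, ∃ w : List (Fin n), ev f w = g := by
    intro g
    obtain ⟨w, -, hw⟩ := exists_word2 (f := f) (x0 := x0) hX hG htr hS'
      (m := max 1 (X.dist x0 (g • x0))) (le_max_left _ _) g
      (by have := le_max_right 1 (X.dist x0 (g • x0)); omega)
    exact ⟨w, hw⟩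
  refine ⟨n, f, hgen, automatic_of_FT hgen (hFn 18) (by simp) fun v w hv hw a h => ?_⟩
  have hend : X.dist (ev f v • x0) (ev f w • x0) ≤ 2 := by
    rw [← h, mul_smul, dist_smul hX hG]
    exact hf' a
  obtain ⟨c, hc0, hc⟩ := traj_exists hB hfin (ev f v • x0) x0
  obtain ⟨c', hc0', hc'⟩ := traj_exists hB hfin (ev f w • x0) x0
  intro t
  change X.dist x0 (((ev f (v.take t))⁻¹ * ev f (w.take t)) • x0) ≤ 18
  rw [← dist_smul hX hG (ev f (v.take t)), mul_smul, smul_inv_smul]
  have h1 := path_close_all hB hfin hG htr hf' hS' hN hv hc hc0 t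
  have h2 := path_close_all hB hfin hG htr hf' hS' hN hw hc' hc0' t
  have h3 := traj_target hB hfin hc hc' (hc0.trans hc0'.symm) hend t
  have h4 := hX.dist_triangle (u := ev f (v.take t) • x0) (v := c t) (w := ev f (w.take t) • x0)
  have h5 := hX.dist_triangle (u := c t) (v := c' t) (w := ev f (w.take t) • x0)
  rw [SimpleGraph.dist_comm (u := c' t)] at h5
  omega

end Pool.Agent.MP_b803e5_al
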